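import Mathlib
import Pool.Agent.MP_815c6c_an.P.All

open Set Metric MeasureTheory
open scoped RealInnerProductSpace ContDiff

namespace Pool.Agent.Results.MP_815c6c_an.PlanarLinearDecay

/-- The Euclidean plane. -/
abbrev E : Type := EuclideanSpace ℝ (Fin 2)

/-- `T b ξ = |ξ|^(b-1) ξ`. So `A = T (p-1)` and `V = T (p/2)`. -/
noncomputable def T (b : ℝ) (ξ : E) : E := ‖ξ‖ ^ (b - 1) • ξ

/-- The `L^2` mean oscillation of `f` on the ball with centre `x₀` and radius `r`. -/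
noncomputable def osc (f : E → E) (x₀ : E) (r : ℝ) : ℝ :=
  √(⨍ x in ball x₀ r, ‖f x - ⨍ y in ball x₀ r, f y‖ ^ 2)

/-- `h` lies in `W^{1,p}_loc(Ω)`, has the weak gradient `G`, and is `p`-harmonic on `Ω`. -/
def PHarmonic (p : ℝ) (Ω : Set E) (h : E → ℝ) (G : E → E) : Prop :=
  (∀ K ⊆ Ω, IsCompact K → MemLp h (ENNReal.ofReal p) (volume.restrict K) ∧
    MemLp G (ENNReal.ofReal p) (volume.restrict K)) ∧
  ∀ φ : E → ℝ, ContDiff ℝ ∞ φ → HasCompactSupport φ → tsupport φ ⊆ Ω →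
    (∀ v, ∫ x, h x * fderiv ℝ φ x v = -∫ x, φ x * ⟪G x, v⟫) ∧
    ∫ x, ⟪‖G x‖ ^ (p - 2) • G x, gradient φ x⟫ = 0

theorem result (p b : ℝ) (hp : 1 < p) (hb : 0 < b) (hpb : 3 * (p - 1) ≤ b ^ 2 + p * b) :
    ∃ c : ℝ, ∀ (Ω : Set E) (h : E → ℝ) (G : E → E), IsOpen Ω → PHarmonic p Ω h G →
      ((p = 2 ∨ 3 * (p - 1) < b ^ 2 + p * b) →
        ∃ W : E → E, ContDiffOn ℝ 1 W Ω ∧ W =ᵐ[volume.restrict Ω] fun x => T b (G x)) ∧
      ∀ (x₀ : E) (r : ℝ), 0 < r → ball x₀ r ⊆ Ω →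
        MemLp (fun x => T b (G x)) 2 (volume.restrict (ball x₀ r)) → ∀ θ ∈ Ioc (0 : ℝ) 1,
          osc (fun x => T b (G x)) x₀ (θ * r) ≤ c * θ * osc (fun x => T b (G x)) x₀ r := by
  obtain ⟨c, hc⟩ := Pool.Agent.MP_815c6c_an.P.finS p b hp hb hpb
  exact ⟨c, fun Ω h G hΩ H => hc Ω h G hΩ H.1 H.2⟩

end Pool.Agent.Results.MP_815c6c_an.PlanarLinearDecay
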