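import Mathlib
import Pool.Agent.MP_815c6c_an.P.All
import Pool.Agent.MP_815c6c_an.t3.Iff

open Set Metric MeasureTheory
open scoped RealInnerProductSpace ContDiff

namespace Pool.Agent.Results.MP_815c6c_an.ScalarDichotomy

/-- Euclidean space. -/
abbrev E (d : ℕ) : Type := EuclideanSpace ℝ (Fin d)

/-- `V(ξ) = |ξ|^((p-2)/2) ξ`. -/
noncomputable def V {d : ℕ} (p : ℝ) (ξ : E d) : E d := ‖ξ‖ ^ ((p - 2) / 2) • ξ

/-- The `L^2` mean oscillation of `f` on the ball with centre `x₀` and radius `r`. -/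
noncomputable def osc {d : ℕ} (f : E d → E d) (x₀ : E d) (r : ℝ) : ℝ :=
  √(⨍ x in ball x₀ r, ‖f x - ⨍ y in ball x₀ r, f y‖ ^ 2)

/-- `h` lies in `W^{1,p}_loc(Ω)`, has the weak gradient `G`, and is `p`-harmonic on `Ω`. -/
def PHarmonic {d : ℕ} (p : ℝ) (Ω : Set (E d)) (h : E d → ℝ) (G : E d → E d) : Prop :=
  (∀ K ⊆ Ω, IsCompact K → MemLp h (ENNReal.ofReal p) (volume.restrict K) ∧
    MemLp G (ENNReal.ofReal p) (volume.restrict K)) ∧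
  ∀ φ : E d → ℝ, ContDiff ℝ ∞ φ → HasCompactSupport φ → tsupport φ ⊆ Ω →
    (∀ v, ∫ x, h x * fderiv ℝ φ x v = -∫ x, φ x * ⟪G x, v⟫) ∧
    ∫ x, ⟪‖G x‖ ^ (p - 2) • G x, gradient φ x⟫ = 0

/-- The assertion of the question for scalar functions in dimension `d`. -/
def Holds (d : ℕ) : Prop :=
  ∀ (p : ℝ) (Ω : Set (E d)) (h : E d → ℝ) (G : E d → E d), 1 < p → IsOpen Ω → PHarmonic p Ω h G →
    (∃ W : E d → E d, ContDiffOn ℝ 1 W Ω ∧ W =ᵐ[volume.restrict Ω] fun x => V p (G x)) ∧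
    ∃ c : ℝ, ∀ (x₀ : E d) (r : ℝ), 0 < r → ball x₀ r ⊆ Ω →
      MemLp (fun x => V p (G x)) 2 (volume.restrict (ball x₀ r)) → ∀ θ ∈ Ioc (0 : ℝ) 1,
        osc (fun x => V p (G x)) x₀ (θ * r) ≤ c * θ * osc (fun x => V p (G x)) x₀ r

theorem result (d : ℕ) (hd : 1 ≤ d) : Holds d ↔ d ≤ 2 := by
  have e : ∀ p : ℝ, (p - 2) / 2 = p / 2 - 1 := fun p => by ring
  simp only [Holds, V, e]
  refine ⟨fun H => (Pool.Agent.MP_815c6c_an.T3.rep_iff Pool.Agent.MP_815c6c_an.P.finS d (17 / 10)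
    hd le_rfl (by norm_num)).1 fun U h G hU k => (H _ U h G (by norm_num) hU k).1,
    fun h2 p U h G hp hU k => ?_⟩
  obtain ⟨c, hc⟩ := Pool.Agent.MP_815c6c_an.T3.low Pool.Agent.MP_815c6c_an.P.finS d p hd h2 hp
  exact ⟨(hc U h G hU k).1, c, (hc U h G hU k).2⟩

end Pool.Agent.Results.MP_815c6c_an.ScalarDichotomy
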